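import Mathlib
import Pool.Agent.Y782.FF.Stm

/-!
# Existence of the parameters
-/

set_option autoImplicit false

namespace Pool.Agent.Y975.FF

open MeasureTheory Finset Filter Pool.Agent.TH285.Ff Pool.Agent.Y782.FF
open scoped ENNReal Topology

theorem exists_task' (ι : Type) [Countable ι] [Nonempty ι] (a : ℕ) :
    ∃ task : ℕ → Code a × ι, ∀ t N, ∃ n, N ≤ n ∧ task n = t := by
  have : Nonempty (Code a × ι) := ⟨(⟨0, fun _ => none⟩, Classical.arbitrary ι)⟩
  obtain ⟨e, he⟩ := exists_surjective_nat (Code a × ι)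
  refine ⟨fun n => e (Nat.unpair n).1, fun t N => ?_⟩
  obtain ⟨k, hk⟩ := he t
  refine ⟨Nat.pair k N, Nat.right_le_pair k N, ?_⟩
  simp only [Nat.unpair_pair]
  exact hk

/-- existence of good parameters -/
theorem par : S_PAR := by
  intro ι _ _ Q
  choose lam ρ ε L nx hnx hst using step_exists
  choose task htask using exists_task' ι
  set al : ℕ → ℕ := fun m => Nat.rec 3 (fun m a => nx m a) m with hal
  have al0 : al 0 = 3 := rfl
  have als : ∀ m, al (m + 1) = nx m (al m) := fun m => rfl
  have hbase : ∀ m : ℕ, th (al m) < 1 / (4 * ((m : ℝ) + 2)) := by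
    intro m
    induction m with
    | zero =>
      rw [al0]
      unfold th
      norm_num
    | succ m ih =>
      have h := hst m (al m) ih
      rw [als]
      exact h.2.2.2.2.2.2.2.2.2.1
  set P : Par := ⟨al, fun m => 2 * L m (al m),
    fun m ℓ => tgt' Q (al m) (lam m (al m)) (ε m (al m)) (task (al m)) ℓ,
    fun m => by rw [als]; exact hnx m (al m)⟩ with hP
  have hPal : ∀ m, P.al m = al m := fun m => rfl
  have hgood : ∀ᵐ ω ∂mu, Good P ω := by
    apply good_ae
    intro M
    rcases M with _ | M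
    · refine ⟨2, ?_⟩
      rw [hPal, al0]
      unfold bnum th
      norm_num
    · obtain ⟨L', hL'⟩ := (hst M (al M) (hbase M)).2.2.2.2.2.2.2.2.2.2
      refine ⟨L', le_trans ?_ hL'⟩
      rw [hPal, als]
      have h1 : bnum P (M + 1) + 1 ≤ 2 ^ (al M + 2) := by
        have h2 := bnum_lt P M
        rw [hPal] at h2
        have h3 : bnum P (M + 1) = 2 ^ (al M + 1) * 1 + bnum P M := rfl
        have h4 : 2 ^ (al M + 2) = 4 * 2 ^ al M := by ring
        have h5 : 2 ^ (al M + 1) = 2 * 2 ^ al M := by ring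
        omega
      have h6 : (1 / 2 : ℝ) ^ (2 ^ (al M + 2)) ≤ (1 / 2 : ℝ) ^ (bnum P (M + 1) + 1) :=
        pow_le_pow_of_le_one (by norm_num) (by norm_num) h1
      have h7 : (1 / 2 : ℝ) ^ (bnum P (M + 1) + 1) ≤ 1 := pow_le_one₀ (by norm_num) (by norm_num)
      have h8 : (1 - (1 / 2 : ℝ) ^ (bnum P (M + 1) + 1)) ^ L' ≤
          (1 - (1 / 2 : ℝ) ^ (2 ^ (al M + 2))) ^ L' :=
        pow_le_pow_left₀ (by linarith) (by linarith) _
      linarith
  refine ⟨P, ?_, hgood, fun m => ?_⟩
  · rw [hPal, al0]
    norm_num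
  · obtain ⟨h1, h2, h3, h4, h5, h6, h7, h8, h9, h10, h11⟩ := hst m (al m) (hbase m)
    refine ⟨lam m (al m), ρ m (al m), ε m (al m), task (al m), h1, h2, h3, h4, h5, h6, h7, h8,
      htask (al m), rfl, ?_⟩
    exact le_trans (close_bound P m (L m (al m)) hgood rfl) h9

/-- the weights of a kernel of finite order are a probability vector -/
theorem kwsum : S_KW := by
  intro κ n
  have hc0 : ∀ x, 0 ≤ clamp x := fun x => le_max_left _ _
  have hc1 : ∀ x, clamp x ≤ 1 := fun x => max_le (by norm_num) (min_le_left _ _)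
  induction n with
  | zero =>
    refine ⟨fun w => by simp [kw], ?_⟩
    simp [kw]
  | succ n ih =>
    refine ⟨fun w => ?_, ?_⟩
    · rw [kw]
      apply mul_nonneg (ih.1 _)
      split_ifs
      · exact hc0 _
      · exact sub_nonneg.2 (hc1 _)
      · norm_num
    · rw [← (Fin.snocEquiv (fun _ : Fin (n + 1) => Bool)).sum_comp, Fintype.sum_prod_type]
      simp only [Fintype.sum_bool]
      have hkey : ∀ w : Fin n → Bool, ∀ b : Bool,
          kw κ (n + 1) ((Fin.snocEquiv (fun _ : Fin (n + 1) => Bool)) (b, w)) = kw κ n w *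
            (if h : κ.1 ≤ n then
              (if b = true then clamp (κ.2 (fun k => w ⟨n - κ.1 + k, by omega⟩))
                else 1 - clamp (κ.2 (fun k => w ⟨n - κ.1 + k, by omega⟩)))
            else 1 / 2) := by
        intro w b
        rw [kw]
        have h1 : Fin.init ((Fin.snocEquiv (fun _ : Fin (n + 1) => Bool)) (b, w)) = w := by
          simp [Fin.snocEquiv]
        have h2 : ((Fin.snocEquiv (fun _ : Fin (n + 1) => Bool)) (b, w)) (Fin.last n) = b := by
          simp [Fin.snocEquiv]
        rw [h1, h2]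
        congr 1
        by_cases hr : κ.1 ≤ n
        · rw [dif_pos hr, dif_pos hr]
          have h3 : (fun k : Fin κ.1 => ((Fin.snocEquiv (fun _ : Fin (n + 1) => Bool)) (b, w))
              ⟨n - κ.1 + k, by omega⟩) = fun k : Fin κ.1 => w ⟨n - κ.1 + k, by omega⟩ := by
            funext k
            have hk := k.2
            have h4 : (⟨n - κ.1 + k, by omega⟩ : Fin (n + 1)) =
                Fin.castSucc ⟨n - κ.1 + k, by omega⟩ := rfl
            rw [h4]
            exact Fin.snoc_castSucc (α := fun _ => Bool) _ _ _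
          rw [h3]
        · rw [dif_neg hr, dif_neg hr]
      simp only [hkey]
      rw [← Finset.sum_add_distrib]
      refine Eq.trans ?_ ih.2
      refine Finset.sum_congr rfl fun w _ => ?_
      rw [← mul_add]
      by_cases hr : κ.1 ≤ n
      · simp [hr]
      · rw [dif_neg hr, dif_neg hr]
        ring

end Pool.Agent.Y975.FF
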